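import Pool.Agent.N809.P17.All
import Pool.Agent.Y687.MQ.Abs
import Pool.Agent.Y723.QT.Bc
import Pool.Agent.Y723.QT.Rf
import Pool.Agent.R494.AV1

/-!
# The twists of the curve of conductor `17` over multiquadratic fields
(after `Pool.Agent.N856.JL.Fld`, by helper856)
-/

set_option autoImplicit false
set_option linter.style.haveILetI false

open WeierstrassCurve NumberField

namespace Pool.Agent.N844.QG.F17

open Pool.Agent.N875.X15 (Fin2)
open Pool.Agent.N875.P17 (WS)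
open Pool.Agent.Y687.MQ (ZB ZB_scale mq_zero)

/-- the coefficient `a` of the twist by `m` -/
def cA (m : ℤ) : ℤ := -91 * m ^ 2

/-- the coefficient `b` of the twist by `m` -/
def cB (m : ℤ) : ℤ := -330 * m ^ 3

theorem disc_eq (m : ℤ) : 4 * cA m ^ 3 + 27 * cB m ^ 2 = -(73984 * m ^ 6) := by
  unfold cA cB
  ring

theorem disc_ne {m : ℤ} (hm : m ≠ 0) : 4 * cA m ^ 3 + 27 * cB m ^ 2 ≠ 0 := by
  rw [disc_eq]
  exact neg_ne_zero.2 (mul_ne_zero (by norm_num) (pow_ne_zero 6 hm))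

/-- the scaling of the equation -/
theorem ws_scale {m k : ℤ} (hm : m ≠ 0) (hk : k ≠ 0) : Fin2 (WS (m * k ^ 2)) ↔ Fin2 (WS m) := by
  have hkq : (k : ℚ) ≠ 0 := by exact_mod_cast hk
  have hvr : Pool.Agent.Y700.VR (WS (m * k ^ 2)) (WS m) (k : ℚ) 0 0 0 := by
    refine ⟨hkq, ?_, ?_, ?_, ?_, ?_⟩ <;> simp [WS] <;> ring
  have hΔ : (WS m).Δ ≠ 0 := by
    have e : (WS m).Δ = -16 * ((4 * cA m ^ 3 + 27 * cB m ^ 2 : ℤ) : ℚ) := by
      simp only [WS, cA, cB, WeierstrassCurve.Δ, WeierstrassCurve.b₂, WeierstrassCurve.b₄,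
        WeierstrassCurve.b₆, WeierstrassCurve.b₈]
      push_cast
      ring
    rw [e]
    exact mul_ne_zero (by norm_num) (by exact_mod_cast disc_ne hm)
  have hT : Pool.Agent.Z702.S_TRN := Pool.Agent.Z932.Z702.t_TRN
  obtain ⟨h1, h2, -⟩ := hT _ _ _ _ _ _ hvr hΔ
  exact and_congr h1 h2

/-- squarefree part -/
theorem exists_sf {z : ℤ} (hz : z ≠ 0) : ∃ s k : ℤ, Squarefree s ∧ k ≠ 0 ∧ z = s * k ^ 2 := by
  obtain ⟨a, b, h1, h2⟩ := Nat.sq_mul_squarefree z.natAbs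
  have hb : b ≠ 0 := by
    rintro rfl
    apply hz
    rw [← Int.natAbs_eq_zero, ← h1]
    ring
  refine ⟨z.sign * a, b, ?_, by exact_mod_cast hb, ?_⟩
  · rw [← Int.squarefree_natAbs, Int.natAbs_mul, Int.natAbs_natCast, Int.natAbs_sign_of_ne_zero hz,
      one_mul]
    exact h2
  · have h3 : z = z.sign * z.natAbs := (Int.sign_mul_natAbs z).symm
    conv_lhs => rw [h3, ← h1]
    push_cast
    ring

/-- `E_z(ℚ)` is finite and `Ш(E_z/ℚ)[2] = 0` -/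
def GA (z : ℤ) : Prop := z ≠ 0 ∧ Fin2 (WS z)

theorem GA.zb {z : ℤ} (h : GA z) : ZB (cA z) (cB z) := by
  obtain ⟨hz, h2⟩ := h
  obtain ⟨s, k, hs, hk, rfl⟩ := exists_sf hz
  rw [ws_scale hs.ne_zero hk] at h2
  obtain ⟨F, f1, f2, f3, f4⟩ := Pool.Agent.N809.P17.bsd_all hs h2
  have hfin := Pool.Agent.N875.P17.finPts_of hs.ne_zero h2
  exact ZB_scale (a := -91) (b := -330) (by norm_num) hs.ne_zero hk ⟨⟨F, ⟨f1, f2⟩, f3⟩, hfin⟩

theorem GA.sha {z : ℤ} (h : GA z) (j : ℕ)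
    (x : Pool.Agent.TH841.SH.D.Sha (Pool.Agent.W307.RT.Sh (cA z) (cB z)))
    (hx : (2 ^ j : ℕ) • x = 0) : x = 0 :=
  Pool.Agent.N875.X15.fin2_pow (W := WS z) h.2 j x hx

/-- **rank and order zero over the field** -/
theorem field {n : ℕ} {d : Fin n → ℤ} {M : ℤ}
    (hd : ∀ T : Finset (Fin n), T.Nonempty → ¬ IsSquare (∏ i ∈ T, d i))
    (h : ∀ T : Finset (Fin n), GA (M * ∏ i ∈ T, d i)) (K : Type)
    [Field K] [NumberField K] (x : Fin n → K) (hx : ∀ i, x i ^ 2 = (d i : K))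
    (hK : IntermediateField.adjoin ℚ (Set.range x) = ⊤) :
    (∃ F : ℂ → ℂ, Pool.Agent.Y19.QT.IsLFunK K (cA M) (cB M) (∏ i, d i) F ∧ F 1 ≠ 0) ∧
      Finite (Pool.Agent.Y19.QT.EK K (cA M) (cB M)) := by
  have hM : M ≠ 0 := by
    have := (h ∅).1
    rwa [Finset.prod_empty, mul_one] at this
  refine mq_zero hd (disc_ne hM) (fun T => ?_) K x hx hK
  have e1 : cA M * (∏ i ∈ T, d i) ^ 2 = cA (M * ∏ i ∈ T, d i) := by
    unfold cA
    ring
  have e2 : cB M * (∏ i ∈ T, d i) ^ 3 = cB (M * ∏ i ∈ T, d i) := by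
    unfold cB
    ring
  rw [e1, e2]
  exact (h T).zb

/-- **the 2-primary part over the field** -/
theorem shaK {n : ℕ} {d : Fin n → ℤ} {M : ℤ}
    (h : ∀ T : Finset (Fin n), GA (M * ∏ i ∈ T, d i)) (K : Type)
    [Field K] [NumberField K] (x : Fin n → K) (hx : ∀ i, x i ^ 2 = (d i : K))
    (hK : IntermediateField.adjoin ℚ (Set.range x) = ⊤) :
    {y : Pool.Agent.TH841.NF.D.Sha (Pool.Agent.TH841.NF.EF (cA M) (cB M) K) |
      ∃ k : ℕ, (2 ^ k : ℕ) • y = 0}.Finite ∧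
    ∀ (k : ℕ) (y : Pool.Agent.TH841.NF.D.Sha (Pool.Agent.TH841.NF.EF (cA M) (cB M) K)),
      (2 ^ k : ℕ) • y = 0 → (2 ^ n : ℕ) • y = 0 := by
  have hM : M ≠ 0 := by
    have := (h ∅).1
    rwa [Finset.prod_empty, mul_one] at this
  have hd0 : ∀ i, d i ≠ 0 := by
    intro i h0
    have h1 := (h {i}).1
    rw [Finset.prod_singleton, h0, mul_zero] at h1
    exact h1 rfl
  have hkl : Pool.Agent.Y723.QT.Kl
      (Pool.Agent.TH841.NF.D.Sha (Pool.Agent.TH841.NF.EF (cA M) (cB M) K)) (n + 0) := by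
    refine Pool.Agent.Y723.QT.base_kl (r := x) (d := fun i => (d i : ℚ)) (fun i => ?_)
      (fun i => by exact_mod_cast hd0 i) hK fun T => ?_
    · rw [hx i, map_intCast]
    · rw [Pool.Agent.TH841.NF.tw_Sh]
      have e1 : (∏ i ∈ T, d i) ^ 2 * cA M = cA (M * ∏ i ∈ T, d i) := by
        unfold cA
        ring
      have e2 : (∏ i ∈ T, d i) ^ 3 * cB M = cB (M * ∏ i ∈ T, d i) := by
        unfold cB
        ring
      rw [e1, e2]
      intro j y hy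
      rw [(h T).sha j y hy, smul_zero]
  rw [add_zero] at hkl
  refine ⟨?_, hkl⟩
  have he : (11 * M : ℤ) ^ 3 + cA M * (11 * M) + cB M = 0 := by
    unfold cA cB
    ring
  exact (Pool.Agent.Y723.QT.f2_iff (Pool.Agent.Y723.QT.tf_EF (F := K) (disc_ne hM) he)).2 ⟨n, hkl⟩

end Pool.Agent.N844.QG.F17
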