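import Pool.Agent.N844.QG.Lf

/-!
# The pencils of quadrics for the twists of the curve `y² = x (x + 1) (x - 16)` of conductor `17`

`E_a : y² = x³ - 91 a² x - 330 a³ = (x + 5 a) (x + 6 a) (x - 11 a)`; the discriminant curve is
`y² = - 4641 a' (x² + 4352 a a') (x² - 289 a a') (x² + 78608 a a')`.
-/

set_option autoImplicit false

namespace Pool.Agent.N844.QG

open Finset Matrix
open Pool.Agent.N844.QP
open scoped Classical

/-- the pencils -/
structure Is17 (a a' m : ℤ) (A B : Matrix (Fin 6) (Fin 6) ℤ) : Prop where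
  symA : A.IsSymm
  symB : B.IsSymm
  disc : ∀ x : ℤ, (x • A - B).det = 4641 * a' * m ^ 2 * ((x ^ 2 + 4352 * (a * a')) *
    (x ^ 2 - 289 * (a * a')) * (x ^ 2 + 78608 * (a * a')))

/-- the leading coefficients -/
def w17 : Fin 3 → ℤ := ![1, 1, 1]

/-- the roots -/
def u17 (a a' : ℤ) : Fin 3 → ℤ := ![-4352 * (a * a'), 289 * (a * a'), -78608 * (a * a')]

theorem Is17.pen {a a' m : ℤ} {A B : Matrix (Fin 6) (Fin 6) ℤ} (h : Is17 a a' m A B) :
    IsPen (-4641 * a' * m ^ 2) w17 (u17 a a') A B := by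
  refine ⟨h.symA, h.symB, fun x => ?_⟩
  rw [h.disc x, Fin.prod_univ_three]
  unfold w17 u17
  simp only [Matrix.cons_val_zero, Matrix.cons_val_one, Matrix.cons_val]
  ring

section

variable {k : Type} [Field k]

theorem gd17 (h2 : (2 : k) ≠ 0) (h3 : (3 : k) ≠ 0) (h7 : (7 : k) ≠ 0) (h13 : (13 : k) ≠ 0)
    (h17 : (17 : k) ≠ 0) {a a' m : ℤ} (ha : (a : k) ≠ 0) (ha' : (a' : k) ≠ 0) (hm : (m : k) ≠ 0) :
    Gd ((-4641 * a' * m ^ 2 : ℤ) : k) (fun i => (w17 i : k)) (fun i => (u17 a a' i : k)) := by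
  have h4641 : (4641 : k) ≠ 0 := by
    have : (4641 : k) = 3 * 7 * 13 * 17 := by norm_num
    rw [this]
    exact mul_ne_zero (mul_ne_zero (mul_ne_zero h3 h7) h13) h17
  have haa : (a : k) * a' ≠ 0 := mul_ne_zero ha ha'
  have h4352 : (4352 : k) ≠ 0 := by
    have : (4352 : k) = 2 ^ 8 * 17 := by norm_num
    rw [this]
    exact mul_ne_zero (pow_ne_zero _ h2) h17
  have h289 : (289 : k) ≠ 0 := by
    have : (289 : k) = 17 ^ 2 := by norm_num
    rw [this]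
    exact pow_ne_zero _ h17
  have h78608 : (78608 : k) ≠ 0 := by
    have : (78608 : k) = 2 ^ 4 * 17 ^ 3 := by norm_num
    rw [this]
    exact mul_ne_zero (pow_ne_zero _ h2) (pow_ne_zero _ h17)
  refine ⟨h2, ?_, fun i => ?_, fun i => ?_, ?_, ?_, ?_⟩
  · push_cast
    exact mul_ne_zero (mul_ne_zero (neg_ne_zero.2 h4641) ha') (pow_ne_zero 2 hm)
  · fin_cases i <;> simp [w17]
  · fin_cases i
    · have : ((u17 a a' 0 : ℤ) : k) = -4352 * ((a : k) * a') := by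
        simp [u17]
      show ((u17 a a' 0 : ℤ) : k) ≠ 0
      rw [this]
      exact mul_ne_zero (neg_ne_zero.2 h4352) haa
    · have : ((u17 a a' 1 : ℤ) : k) = 289 * ((a : k) * a') := by
        simp [u17]
      show ((u17 a a' 1 : ℤ) : k) ≠ 0
      rw [this]
      exact mul_ne_zero h289 haa
    · have : ((u17 a a' 2 : ℤ) : k) = -78608 * ((a : k) * a') := by
        simp [u17]
      show ((u17 a a' 2 : ℤ) : k) ≠ 0
      rw [this]
      exact mul_ne_zero (neg_ne_zero.2 h78608) haa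
  · have : (w17 0 : k) * (u17 a a' 1 : k) - (w17 1 : k) * (u17 a a' 0 : k) =
        4641 * ((a : k) * a') := by
      simp only [w17, u17, Matrix.cons_val_zero, Matrix.cons_val_one]
      push_cast
      ring
    rw [this]
    exact mul_ne_zero h4641 haa
  · have : (w17 0 : k) * (u17 a a' 2 : k) - (w17 2 : k) * (u17 a a' 0 : k) =
        -(2 ^ 4 * 4641 * ((a : k) * a')) := by
      simp only [w17, u17, Matrix.cons_val_zero, Matrix.cons_val]
      push_cast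
      ring
    rw [this]
    exact neg_ne_zero.2 (mul_ne_zero (mul_ne_zero (pow_ne_zero _ h2) h4641) haa)
  · have : (w17 1 : k) * (u17 a a' 2 : k) - (w17 2 : k) * (u17 a a' 1 : k) =
        -(17 * 4641 * ((a : k) * a')) := by
      simp only [w17, u17, Matrix.cons_val_one, Matrix.cons_val]
      push_cast
      ring
    rw [this]
    exact neg_ne_zero.2 (mul_ne_zero (mul_ne_zero h17 h4641) haa)

variable [Fintype k]

/-- the first quotient of the discriminant curve -/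
theorem T1_17 (h3 : (3 : k) ≠ 0) (h7 : (7 : k) ≠ 0) (h13 : (13 : k) ≠ 0)
    (h17 : (17 : k) ≠ 0) {a a' m : ℤ} (ha' : (a' : k) ≠ 0) (hm : (m : k) ≠ 0) :
    T1 ((-4641 * a' * m ^ 2 : ℤ) : k) (fun i => (w17 i : k)) (fun i => (u17 a a' i : k)) =
      SK k (-91 * a ^ 2) (-330 * a ^ 3) := by
  have h4641 : (4641 : k) ≠ 0 := by
    have : (4641 : k) = 3 * 7 * 13 * 17 := by norm_num
    rw [this]
    exact mul_ne_zero (mul_ne_zero (mul_ne_zero h3 h7) h13) h17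
  have h273 : (273 : k) ≠ 0 := by
    have : (273 : k) = 3 * 7 * 13 := by norm_num
    rw [this]
    exact mul_ne_zero (mul_ne_zero h3 h7) h13
  have hα : (-1 / (4641 * (a' : k))) ≠ 0 := div_ne_zero (by norm_num) (mul_ne_zero h4641 ha')
  unfold SK T1
  rw [← sum_lin (fun t => quadraticChar k (t ^ 3 + ((-91 * a ^ 2 : ℤ) : k) * t +
    ((-330 * a ^ 3 : ℤ) : k))) hα (-(1621 * (a : k)) / 273)]
  refine Finset.sum_congr rfl fun t _ => ?_
  have hs : ((4641 * (a' : k)) ^ 2 * (m : k)) ≠ 0 :=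
    mul_ne_zero (pow_ne_zero 2 (mul_ne_zero h4641 ha')) hm
  rw [← chi_sq hs ((-1 / (4641 * (a' : k)) * t + -(1621 * (a : k)) / 273) ^ 3 + _ + _)]
  congr 1
  rw [Fin.prod_univ_three]
  simp only [w17, u17, Matrix.cons_val_zero, Matrix.cons_val_one, Matrix.cons_val]
  have e4641 : (4641 : k) = 17 * 273 := by norm_num
  push_cast
  rw [e4641]
  field_simp
  ring

/-- the second quotient of the discriminant curve -/
theorem T2_17 (h2 : (2 : k) ≠ 0) (h3 : (3 : k) ≠ 0) (h7 : (7 : k) ≠ 0) (h13 : (13 : k) ≠ 0)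
    (h17 : (17 : k) ≠ 0) {a a' m : ℤ} (ha : (a : k) ≠ 0) (ha' : (a' : k) ≠ 0) (hm : (m : k) ≠ 0) :
    T2 ((-4641 * a' * m ^ 2 : ℤ) : k) (fun i => (w17 i : k)) (fun i => (u17 a a' i : k)) =
      SK k (-91 * a' ^ 2) (-330 * a' ^ 3) := by
  have h273 : (273 : k) ≠ 0 := by
    have : (273 : k) = 3 * 7 * 13 := by norm_num
    rw [this]
    exact mul_ne_zero (mul_ne_zero h3 h7) h13
  have h4912 : (1257728 : k) ≠ 0 := by
    have : (1257728 : k) = 2 ^ 8 * 17 ^ 3 := by norm_num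
    rw [this]
    exact mul_ne_zero (pow_ne_zero _ h2) (pow_ne_zero _ h17)
  have h1088 : (1088 : k) ≠ 0 := by
    have : (1088 : k) = 2 ^ 6 * 17 := by norm_num
    rw [this]
    exact mul_ne_zero (pow_ne_zero _ h2) h17
  have hα : (1257728 * (a : k) * (a' : k) ^ 2 / 273) ≠ 0 :=
    div_ne_zero (mul_ne_zero (mul_ne_zero h4912 ha) (pow_ne_zero 2 ha')) h273
  unfold SK T2
  rw [← sum_lin (fun t => quadraticChar k (t ^ 3 + ((-91 * a' ^ 2 : ℤ) : k) * t +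
    ((-330 * a' ^ 3 : ℤ) : k))) hα (-(1349 * (a' : k)) / 273)]
  refine Finset.sum_congr rfl fun t _ => ?_
  have hs : (273 ^ 2 * (m : k) / (1088 * (a' : k))) ≠ 0 :=
    div_ne_zero (mul_ne_zero (pow_ne_zero 2 h273) hm) (mul_ne_zero h1088 ha')
  rw [← chi_sq hs ((1257728 * (a : k) * (a' : k) ^ 2 / 273 * t + -(1349 * (a' : k)) / 273) ^ 3 + _
    + _)]
  congr 1
  rw [Fin.prod_univ_three]
  simp only [w17, u17, Matrix.cons_val_zero, Matrix.cons_val_one, Matrix.cons_val]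
  have e4641 : (4641 : k) = 17 * 273 := by norm_num
  have e1088 : (1088 : k) = 2 ^ 6 * 17 := by norm_num
  push_cast
  rw [e1088]
  field_simp
  ring

end

/-- the primes of bad reduction of the pencils -/
def N17 (a a' m : ℤ) : ℤ := 9282 * (a * a' * m)

theorem ne_of {p : ℕ} {a a' m : ℤ} (h : ¬ (p : ℤ) ∣ N17 a a' m) (k : Type) [Field k] [CharP k p] :
    ((2 : k) ≠ 0 ∧ (3 : k) ≠ 0 ∧ (7 : k) ≠ 0 ∧ (13 : k) ≠ 0 ∧ (17 : k) ≠ 0) ∧
      (a : k) ≠ 0 ∧ (a' : k) ≠ 0 ∧ (m : k) ≠ 0 := by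
  have c0 : ∀ z : ℤ, z ∣ N17 a a' m → (z : k) ≠ 0 := fun z hz h0 =>
    h (((CharP.intCast_eq_zero_iff k p z).1 h0).trans hz)
  unfold N17 at c0
  refine ⟨⟨?_, ?_, ?_, ?_, ?_⟩, ?_, ?_, ?_⟩
  · simpa using c0 2 ⟨4641 * (a * a' * m), by ring⟩
  · simpa using c0 3 ⟨3094 * (a * a' * m), by ring⟩
  · simpa using c0 7 ⟨1326 * (a * a' * m), by ring⟩
  · simpa using c0 13 ⟨714 * (a * a' * m), by ring⟩
  · simpa using c0 17 ⟨546 * (a * a' * m), by ring⟩
  · exact c0 a ⟨9282 * (a' * m), by ring⟩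
  · exact c0 a' ⟨9282 * (a * m), by ring⟩
  · exact c0 m ⟨9282 * (a * a'), by ring⟩

theorem bad17 {a a' m : ℤ} {p : ℕ} (hp : p.Prime) {z : ℤ} (hz : z ∣ a * a' * m)
    (h : (p : ℤ) ∣ 2 * (4 * (-91 * z ^ 2) ^ 3 + 27 * (-330 * z ^ 3) ^ 2)) :
    (p : ℤ) ∣ N17 a a' m := by
  have hp' : Prime (p : ℤ) := Nat.prime_iff_prime_int.1 hp
  have e : 2 * (4 * (-91 * z ^ 2) ^ 3 + 27 * (-330 * z ^ 3) ^ 2) = -(2 ^ 9 * (17 ^ 2 * z ^ 6)) := by
    ring
  rw [e, dvd_neg] at h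
  unfold N17
  rcases hp'.dvd_or_dvd h with h | h
  · exact (hp'.dvd_of_dvd_pow h).trans ⟨4641 * (a * a' * m), by ring⟩
  · rcases hp'.dvd_or_dvd h with h | h
    · exact (hp'.dvd_of_dvd_pow h).trans ⟨546 * (a * a' * m), by ring⟩
    · exact ((hp'.dvd_of_dvd_pow h).trans hz).trans ⟨9282, by ring⟩

/-- the third cohomology -/
theorem Is17.split {a a' m : ℤ} {A B : Matrix (Fin 6) (Fin 6) ℤ} (h : Is17 a a' m A B) :
    Split (N17 a a' m) (-91 * a ^ 2) (-330 * a ^ 3) (-91 * a' ^ 2) (-330 * a' ^ 3) A B where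
  h1 := fun p hp hd => bad17 hp ⟨a' * m, by ring⟩ hd
  h2 := fun p hp hd => bad17 hp ⟨a * m, by ring⟩ hd
  num := by
    intro p k _ _ _ hp hN
    obtain ⟨⟨k2, k3, k7, k13, k17⟩, ka, ka', km⟩ := ne_of hN k
    rw [h.pen.numP (gd17 k2 k3 k7 k13 k17 ka ka' km), T1_17 k3 k7 k13 k17 ka' km,
      T2_17 k2 k3 k7 k13 k17 ka ka' km]

/-- an explicit pencil for every `a` -/
def ex17A (a : ℤ) : Matrix (Fin 6) (Fin 6) ℤ :=
  !![1, 0, 0, 0, 0, 0;
     0, 4641 * a, 0, 0, 0, 0;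
     0, 0, 1, 0, 0, 0;
     0, 0, 0, -17, 0, 0;
     0, 0, 0, 0, 1, 0;
     0, 0, 0, 0, 0, -17]

/-- an explicit pencil for every `a` -/
def ex17B (a : ℤ) : Matrix (Fin 6) (Fin 6) ℤ :=
  !![17 * a, 0, 0, 0, 0, 0;
     0, -78897 * a ^ 2, 0, 0, 0, 0;
     0, 0, 0, 272 * a, 0, 0;
     0, 0, 272 * a, 0, 0, 0;
     0, 0, 0, 0, 0, 1156 * a;
     0, 0, 0, 0, 1156 * a, 0]

theorem ex17 (a : ℤ) : Is17 a a 17 (ex17A a) (ex17B a) where
  symA := by
    unfold ex17A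
    ext i j
    fin_cases i <;> fin_cases j <;> rfl
  symB := by
    unfold ex17B
    ext i j
    fin_cases i <;> fin_cases j <;> rfl
  disc := by
    intro x
    unfold ex17A ex17B
    simp [Matrix.det_succ_row_zero, Fin.sum_univ_succ, Fin.succAbove]
    ring

end Pool.Agent.N844.QG
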