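import Pool.Agent.N844.QG.Pen
import Pool.Agent.N844.QP.PencilK
import Pool.Agent.R494.AV1

/-!
The `L`-function of the third cohomology of a threefold over a number field, if the numbers of points over
the finite fields are given by two elliptic curves.
-/

set_option autoImplicit false

namespace Pool.Agent.N844.QG

open Finset Matrix NumberField IsDedekindDomain
open Pool.Agent.H82R3.EK (luc luc_eq card_points)
open Pool.Agent.N844.QP
open scoped Classical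

/-- the trace of Frobenius of `y² = x³ + a x + b` over the field with `p` elements -/
noncomputable def tp (a b : ℤ) (p : ℕ) : ℤ :=
  (p : ℤ) - Nat.card {x : ZMod p × ZMod p //
    x.2 ^ 2 = x.1 ^ 3 + (a : ZMod p) * x.1 + (b : ZMod p)}

/-- the eigenvalues of Frobenius -/
theorem eigenW {p : ℕ} [Fact p.Prime] (hp2 : p ≠ 2) (a b : ℤ) :
    ∃ α β : ℂ, α + β = tp a b p ∧ α * β = p ∧ ‖α‖ = Real.sqrt p ∧ ‖β‖ = Real.sqrt p := by
  have hp : p.Prime := Fact.out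
  have hk : ringChar (ZMod p) ≠ 2 := by
    rw [ZMod.ringChar_zmod_n]
    exact hp2
  have hH := W165.CE.hasse hk (a : ZMod p) (b : ZMod p)
  rw [ZMod.card] at hH
  have hH2 : |(tp a b p : ℝ)| ≤ 2 * Real.sqrt p := by
    unfold tp
    push_cast at hH ⊢
    exact hH
  have hp0 : (0 : ℝ) ≤ p := Nat.cast_nonneg p
  have hdisc : (tp a b p : ℝ) ^ 2 ≤ 4 * p := by
    have := sq_le_sq' (neg_le_of_abs_le hH2) (le_of_abs_le hH2)
    rw [mul_pow, Real.sq_sqrt hp0] at this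
    linarith
  set s : ℝ := Real.sqrt (4 * p - (tp a b p : ℝ) ^ 2) with hs
  have hs2 : s ^ 2 = 4 * p - (tp a b p : ℝ) ^ 2 := Real.sq_sqrt (by linarith)
  have hnorm : ∀ e : ℝ, e ^ 2 = 1 →
      ‖((tp a b p : ℝ) / 2 : ℂ) + ((e * s / 2 : ℝ) : ℂ) * Complex.I‖ = Real.sqrt p := by
    intro e he
    have : (((tp a b p : ℝ) / 2 : ℂ)) = (((tp a b p : ℝ) / 2 : ℝ) : ℂ) := by push_cast; ring
    rw [this, Complex.norm_add_mul_I]
    congr 1
    have : ((tp a b p : ℝ) / 2) ^ 2 + (e * s / 2) ^ 2 = ((tp a b p : ℝ) ^ 2 + e ^ 2 * s ^ 2) / 4 := by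
      ring
    rw [this, he, hs2]
    ring
  refine ⟨((tp a b p : ℝ) / 2 : ℂ) + ((1 * s / 2 : ℝ) : ℂ) * Complex.I,
    ((tp a b p : ℝ) / 2 : ℂ) + ((-1 * s / 2 : ℝ) : ℂ) * Complex.I, ?_, ?_,
    hnorm 1 (by norm_num), hnorm (-1) (by norm_num)⟩
  · push_cast
    ring
  · have hI : Complex.I ^ 2 = -1 := Complex.I_sq
    have hs3 : (s : ℂ) ^ 2 = 4 * p - (tp a b p : ℂ) ^ 2 := by
      have := congrArg (fun z : ℝ => (z : ℂ)) hs2
      push_cast at this
      exact this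
    push_cast
    have : ((tp a b p : ℂ) / 2 + 1 * (s : ℂ) / 2 * Complex.I) *
        ((tp a b p : ℂ) / 2 + -1 * (s : ℂ) / 2 * Complex.I) =
        (tp a b p : ℂ) ^ 2 / 4 - (s : ℂ) ^ 2 / 4 * Complex.I ^ 2 := by ring
    rw [this, hI, hs3]
    ring

/-- the character sum of `y² = x³ + a x + b` -/
noncomputable def SK (k : Type) [Field k] [Fintype k] (a b : ℤ) : ℤ :=
  ∑ t : k, quadraticChar k (t ^ 3 + (a : k) * t + (b : k))

/-- the number of points over the finite fields -/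
theorem pts_luc {p : ℕ} [Fact p.Prime] {a b : ℤ} (h : ¬ (p : ℤ) ∣ 2 * (4 * a ^ 3 + 27 * b ^ 2))
    (k : Type) [Field k] [Fintype k] [CharP k p] (r : ℕ) (hr : Fintype.card k = p ^ r) :
    (Fintype.card k : ℤ) - Nat.card {x : k × k // x.2 ^ 2 = x.1 ^ 3 + (a : k) * x.1 + (b : k)} =
      luc (tp a b p) p r := by
  have hp : p.Prime := Fact.out
  let _ : Algebra (ZMod p) k := ZMod.algebra k p
  have hp2 : p ≠ 2 := by
    rintro rfl
    exact h (dvd_mul_right _ _)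
  have hD : ¬ (p : ℤ) ∣ 4 * a ^ 3 + 27 * b ^ 2 := fun h0 => h (dvd_mul_of_dvd_right h0 _)
  have h4 := W165.CE.points_ext hp2 a b hD (k := k)
  have hfr : Module.finrank (ZMod p) k = r := by
    have h6 := Module.card_eq_pow_finrank (K := ZMod p) (V := k)
    rw [hr, ZMod.card] at h6
    exact (Nat.pow_right_injective hp.two_le h6).symm
  rw [hfr] at h4
  exact h4

theorem SK_luc {p : ℕ} [Fact p.Prime] {a b : ℤ} (h : ¬ (p : ℤ) ∣ 2 * (4 * a ^ 3 + 27 * b ^ 2))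
    (k : Type) [Field k] [Fintype k] [CharP k p] (r : ℕ) (hr : Fintype.card k = p ^ r) :
    SK k a b = - luc (tp a b p) p r := by
  have hp : p.Prime := Fact.out
  have hk : ringChar k ≠ 2 := by
    rw [ringChar.eq k p]
    rintro rfl
    exact h (dvd_mul_right _ _)
  have h4 := pts_luc h k r hr
  have h5 := card_points hk (fun x : k => x ^ 3 + (a : k) * x + (b : k))
  rw [h5] at h4
  unfold SK
  linarith

variable {K : Type} [Field K] [NumberField K]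

theorem avW {v : HeightOneSpectrum (𝓞 K)} {p f : ℕ} [Fact p.Prime] (hq : qv K v = p ^ f)
    (hp : CharP (𝓞 K ⧸ v.asIdeal) p) {a b : ℤ} (h : ¬ (p : ℤ) ∣ 2 * (4 * a ^ 3 + 27 * b ^ 2)) :
    av K a b v = luc (tp a b p) p f := by
  have hm : v.asIdeal.IsMaximal := v.isMaximal
  let _ : Field (𝓞 K ⧸ v.asIdeal) := Ideal.Quotient.field v.asIdeal
  have hfin : Finite (𝓞 K ⧸ v.asIdeal) := Ideal.finiteQuotientOfFreeOfNeBot v.asIdeal v.ne_bot
  let _ : Fintype (𝓞 K ⧸ v.asIdeal) := Fintype.ofFinite _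
  have hc : Fintype.card (𝓞 K ⧸ v.asIdeal) = p ^ f := by
    rw [← Nat.card_eq_fintype_card]
    exact hq
  have h1 := pts_luc h (𝓞 K ⧸ v.asIdeal) f hc
  rw [← h1, hc, ← hq]
  rfl

/-- the factor of an elliptic curve -/
noncomputable def dn (K : Type) [Field K] (a b : ℤ) (v : HeightOneSpectrum (𝓞 K)) (s : ℂ) : ℂ :=
  1 - (av K a b v : ℂ) * (qv K v : ℂ) ^ (-s) + (qv K v : ℂ) ^ (1 - 2 * s)

/-- the third cohomology of the threefold is `(H¹(E) ⊕ H¹(E'))(-1)`, `E : y² = x³ + a x + b`,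
`E' : y² = x³ + a' x + b'`, at all the finite fields of characteristic not dividing `N` -/
structure Split (N a b a' b' : ℤ) (A B : Matrix (Fin 6) (Fin 6) ℤ) : Prop where
  h1 : ∀ p : ℕ, p.Prime → (p : ℤ) ∣ 2 * (4 * a ^ 3 + 27 * b ^ 2) → (p : ℤ) ∣ N
  h2 : ∀ p : ℕ, p.Prime → (p : ℤ) ∣ 2 * (4 * a' ^ 3 + 27 * b' ^ 2) → (p : ℤ) ∣ N
  num : ∀ (p : ℕ) (k : Type) [Field k] [Fintype k] [CharP k p], p.Prime → ¬ (p : ℤ) ∣ N →
    (numP (A.map (Int.castRingHom k)) (B.map (Int.castRingHom k)) : ℤ) =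
      1 + Fintype.card k + (Fintype.card k : ℤ) ^ 2 + (Fintype.card k : ℤ) ^ 3 +
        Fintype.card k * (SK k a b + SK k a' b')

theorem two_ne_of {p : ℕ} {a b : ℤ} (h : ¬ (p : ℤ) ∣ 2 * (4 * a ^ 3 + 27 * b ^ 2)) : p ≠ 2 := by
  rintro rfl
  exact h (dvd_mul_right _ _)

/-- the eigenvalues of Frobenius are complex conjugate -/
theorem conjW {p : ℕ} (hp : p.Prime) {α β : ℂ} (h2 : α * β = p) (h3 : ‖α‖ = Real.sqrt p) :
    β = (starRingEnd ℂ) α := by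
  have h0 : α ≠ 0 := by
    rintro rfl
    rw [zero_mul] at h2
    exact hp.ne_zero (by exact_mod_cast h2.symm)
  have h4 : α * (starRingEnd ℂ) α = p := by
    rw [Complex.mul_conj, Complex.normSq_eq_norm_sq, h3, Real.sq_sqrt (Nat.cast_nonneg p)]
    norm_cast
  exact mul_left_cancel₀ h0 (h2.trans h4.symm)

/-- the decomposition of the third cohomology at a place -/
theorem decompS {N a b a' b' : ℤ} {A B : Matrix (Fin 6) (Fin 6) ℤ} (hS : Split N a b a' b' A B)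
    {v : HeightOneSpectrum (𝓞 K)} (h : ((N : ℤ) : 𝓞 K) ∉ v.asIdeal) :
    ∃ ω ω' : ℂ, ω * (starRingEnd ℂ) ω = qv K v ∧ ω' * (starRingEnd ℂ) ω' = qv K v ∧
      (av K a b v : ℂ) = ω + (starRingEnd ℂ) ω ∧
      (av K a' b' v : ℂ) = ω' + (starRingEnd ℂ) ω' ∧
      ∀ (k : Type) [Field k] [Fintype k] [Algebra (𝓞 K ⧸ v.asIdeal) k] (r : ℕ),
        Fintype.card k = qv K v ^ r →
        (numP (A.map (Int.castRingHom k)) (B.map (Int.castRingHom k)) : ℂ) =
          1 + (qv K v : ℂ) ^ r + (qv K v : ℂ) ^ (2 * r) + (qv K v : ℂ) ^ (3 * r) -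
            (qv K v : ℂ) ^ r * ((ω ^ r + (starRingEnd ℂ) ω ^ r) +
              (ω' ^ r + (starRingEnd ℂ) ω' ^ r)) := by
  obtain ⟨p, f, hp, hf, hq, hc⟩ := place v
  have : Fact p.Prime := ⟨hp⟩
  have h' := not_dvd_of_not_mem hc h
  have hn : ¬ (p : ℤ) ∣ 2 * (4 * a ^ 3 + 27 * b ^ 2) := fun h0 => h' (hS.h1 p hp h0)
  have hn' : ¬ (p : ℤ) ∣ 2 * (4 * a' ^ 3 + 27 * b' ^ 2) := fun h0 => h' (hS.h2 p hp h0)
  obtain ⟨α, β, a1, a2, a3, a4⟩ := eigenW (two_ne_of hn) a b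
  obtain ⟨α', β', b1, b2, b3, b4⟩ := eigenW (two_ne_of hn) a' b'
  have ec : β = (starRingEnd ℂ) α := conjW hp a2 a3
  have ec' : β' = (starRingEnd ℂ) α' := conjW hp b2 b3
  refine ⟨α ^ f, α' ^ f, ?_, ?_, ?_, ?_, fun k _ _ _ r hr => ?_⟩
  · rw [map_pow, ← mul_pow, ← ec, a2, hq]
    push_cast
    rfl
  · rw [map_pow, ← mul_pow, ← ec', b2, hq]
    push_cast
    rfl
  · rw [avW hq hc hn, luc_eq a1 (by rw [a2]; norm_cast), map_pow, ← ec]
  · rw [avW hq hc hn', luc_eq b1 (by rw [b2]; norm_cast), map_pow, ← ec']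
  · have hcp : CharP k p := by
      refine charP_of_injective_algebraMap ?_ p (R := 𝓞 K ⧸ v.asIdeal)
      have hm : v.asIdeal.IsMaximal := v.isMaximal
      let _ : Field (𝓞 K ⧸ v.asIdeal) := Ideal.Quotient.field v.asIdeal
      exact RingHom.injective (algebraMap (𝓞 K ⧸ v.asIdeal) k)
    have h6 := hS.num p k hp h'
    have hr' : Fintype.card k = p ^ (f * r) := by rw [hr, hq, pow_mul]
    rw [SK_luc hn k (f * r) hr', SK_luc hn' k (f * r) hr', hr, hq] at h6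
    have h7 := congrArg (fun z : ℤ => (z : ℂ)) h6
    push_cast at h7
    rw [luc_eq a1 (by rw [a2]; norm_cast), luc_eq b1 (by rw [b2]; norm_cast)] at h7
    rw [h7, map_pow, map_pow, ← ec, ← ec', hq]
    rw [← pow_mul, ← pow_mul, ← pow_mul, ← pow_mul]
    push_cast
    ring

/-- the eigenvalues of Frobenius on the third cohomology -/
theorem frobS {N a b a' b' : ℤ} {A B : Matrix (Fin 6) (Fin 6) ℤ} (hS : Split N a b a' b' A B)
    {v : HeightOneSpectrum (𝓞 K)} (h : ((N : ℤ) : 𝓞 K) ∉ v.asIdeal) :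
    ∃ ω : Fin 4 → ℂ, IsFrobV K A B v ω ∧ ∀ s : ℂ, ∏ j, (1 - ω j * (qv K v : ℂ) ^ (-s)) =
      dn K a b v (s - 1) * dn K a' b' v (s - 1) := by
  obtain ⟨ω, ω', w1, w2, w3, w4, w5⟩ := decompS hS h
  obtain ⟨p, f, hp, hf, hq, hc⟩ := place v
  have hq0 : (0 : ℝ) < qv K v := by
    rw [hq]
    exact_mod_cast pow_pos hp.pos f
  have hqc : (qv K v : ℂ) ≠ 0 := by exact_mod_cast hq0.ne'
  set q : ℂ := (qv K v : ℂ) with hqdef
  have hnorm : ∀ z : ℂ, z * (starRingEnd ℂ) z = qv K v → ‖q * z‖ = (qv K v : ℝ) ^ ((3 : ℝ) / 2) ∧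
      ‖q * (starRingEnd ℂ) z‖ = (qv K v : ℝ) ^ ((3 : ℝ) / 2) := by
    intro z hz
    have h1 : ‖z‖ ^ 2 = (qv K v : ℝ) := by
      rw [Complex.mul_conj, Complex.normSq_eq_norm_sq] at hz
      exact_mod_cast hz
    have h2 : ‖z‖ = Real.sqrt (qv K v : ℝ) := by
      rw [← h1, Real.sqrt_sq (norm_nonneg z)]
    have h3 : (qv K v : ℝ) * Real.sqrt (qv K v : ℝ) = (qv K v : ℝ) ^ ((3 : ℝ) / 2) := by
      rw [Real.sqrt_eq_rpow, show ((3 : ℝ) / 2) = 1 + 1 / 2 by norm_num, Real.rpow_add hq0,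
        Real.rpow_one]
    refine ⟨?_, ?_⟩
    · rw [norm_mul, hqdef, Complex.norm_natCast, h2, h3]
    · rw [norm_mul, RCLike.norm_conj, hqdef, Complex.norm_natCast, h2, h3]
  refine ⟨![q * ω, q * (starRingEnd ℂ) ω, q * ω', q * (starRingEnd ℂ) ω'], ⟨?_, ?_⟩, ?_⟩
  · intro j
    fin_cases j
    · exact (hnorm ω w1).1
    · exact (hnorm ω w1).2
    · exact (hnorm ω' w2).1
    · exact (hnorm ω' w2).2
  · intro k _ _ _ r hr
    rw [w5 k r hr]
    simp only [Fin.sum_univ_four, Matrix.cons_val_zero, Matrix.cons_val_one, Matrix.cons_val]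
    rw [mul_pow, mul_pow, mul_pow, mul_pow]
    ring
  · intro s
    simp only [Fin.prod_univ_four, Matrix.cons_val_zero, Matrix.cons_val_one, Matrix.cons_val]
    have e1 : q ^ (-(s - 1)) = q * q ^ (-s) := by
      rw [show -(s - 1) = 1 + -s by ring, Complex.cpow_add _ _ hqc, Complex.cpow_one]
    have e2 : q ^ (1 - 2 * (s - 1)) = q ^ 3 * (q ^ (-s)) ^ 2 := by
      have h3 : q ^ 3 = q ^ (3 : ℂ) := by
        rw [← Complex.cpow_natCast]
        norm_num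
      rw [show 1 - 2 * (s - 1) = 3 + (-s + -s) by ring, Complex.cpow_add _ _ hqc,
        Complex.cpow_add _ _ hqc, h3]
      ring
    have e3 : dn K a b v (s - 1) = (1 - q * ω * q ^ (-s)) *
        (1 - q * (starRingEnd ℂ) ω * q ^ (-s)) := by
      unfold dn
      rw [← hqdef, e1, e2, w3]
      have : q ^ 3 = q ^ 2 * (ω * (starRingEnd ℂ) ω) := by rw [w1]; ring
      rw [this]
      ring
    have e4 : dn K a' b' v (s - 1) = (1 - q * ω' * q ^ (-s)) *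
        (1 - q * (starRingEnd ℂ) ω' * q ^ (-s)) := by
      unfold dn
      rw [← hqdef, e1, e2, w4]
      have : q ^ 3 = q ^ 2 * (ω' * (starRingEnd ℂ) ω') := by rw [w2]; ring
      rw [this]
      ring
    rw [e3, e4]
    ring

theorem mem_of_primes {M N : ℤ} (h : ∀ p : ℕ, p.Prime → (p : ℤ) ∣ M → (p : ℤ) ∣ N)
    (v : HeightOneSpectrum (𝓞 K)) (hv : ((M : ℤ) : 𝓞 K) ∈ v.asIdeal) :
    ((N : ℤ) : 𝓞 K) ∈ v.asIdeal := by
  obtain ⟨p, f, hp, hf, hq, hc⟩ := place v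
  have h1 : (p : ℤ) ∣ M := by
    rw [← Ideal.Quotient.eq_zero_iff_mem, map_intCast] at hv
    exact (CharP.intCast_eq_zero_iff (𝓞 K ⧸ v.asIdeal) p M).1 hv
  have h2 := h p hp h1
  rw [← Ideal.Quotient.eq_zero_iff_mem, map_intCast]
  exact (CharP.intCast_eq_zero_iff (𝓞 K ⧸ v.asIdeal) p N).2 h2

/-- the `L`-function of the third cohomology over a number field -/
theorem eulerS {N D a b a' b' : ℤ} (hN : N ≠ 0) (hD : D ≠ 0) {A B : Matrix (Fin 6) (Fin 6) ℤ}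
    (hS : Split N a b a' b' A B)
    (hE : ∃ F : ℂ → ℂ, Pool.Agent.Y19.QT.IsLFunK K a b D F ∧ F 1 ≠ 0)
    (hE' : ∃ F : ℂ → ℂ, Pool.Agent.Y19.QT.IsLFunK K a' b' D F ∧ F 1 ≠ 0) :
    ∃ ω : HeightOneSpectrum (𝓞 K) → Fin 4 → ℂ,
      (∀ v, ((N * D : ℤ) : 𝓞 K) ∉ v.asIdeal → IsFrobV K A B v (ω v)) ∧
      ∃ L : ℂ → ℂ, Differentiable ℂ L ∧
        (∀ s : ℂ, (5 : ℝ) / 2 < s.re →
          HasProd (fun v : HeightOneSpectrum (𝓞 K) =>
            if ((N * D : ℤ) : 𝓞 K) ∈ v.asIdeal then 1 else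
            ∏ j, (1 - ω v j * (qv K v : ℂ) ^ (-s))⁻¹) (L s)) ∧ L 2 ≠ 0 := by
  have hND : N * D ≠ 0 := mul_ne_zero hN hD
  obtain ⟨F, ⟨hF, hFp⟩, hF1⟩ := Pool.Agent.R494.AV.prodL (K := K) (ι := Fin 2) (a := ![a, a'])
    (b := ![b, b']) (D := fun _ => D) hND (fun i v => by
      refine mem_of_primes (fun p hp hpd => ?_) v
      rcases (Nat.prime_iff_prime_int.1 hp).dvd_or_dvd hpd with h0 | h0
      · refine dvd_mul_of_dvd_left ?_ _
        fin_cases i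
        · exact hS.h1 p hp h0
        · exact hS.h2 p hp h0
      · exact dvd_mul_of_dvd_right h0 _) (fun i => by
      fin_cases i
      · exact hE
      · exact hE')
  have hex : ∀ v : HeightOneSpectrum (𝓞 K), ∃ ω : Fin 4 → ℂ,
      ((N * D : ℤ) : 𝓞 K) ∉ v.asIdeal →
      (IsFrobV K A B v ω ∧ ∀ s : ℂ, ∏ j, (1 - ω j * (qv K v : ℂ) ^ (-s)) =
        dn K a b v (s - 1) * dn K a' b' v (s - 1)) := by
    intro v
    by_cases hb : ((N * D : ℤ) : 𝓞 K) ∈ v.asIdeal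
    · exact ⟨fun _ => 0, fun h => absurd hb h⟩
    · have h3 : ((N : ℤ) : 𝓞 K) ∉ v.asIdeal := fun h0 => hb (mem_of_dvd ⟨D, rfl⟩ h0)
      obtain ⟨ω, h⟩ := frobS hS h3
      exact ⟨ω, fun _ => h⟩
  choose ω hω using hex
  refine ⟨ω, fun v hv => (hω v hv).1, fun s => F (s - 1), ?_, ?_, ?_⟩
  · exact hF.comp (differentiable_id.sub_const 1)
  · intro s hs
    have hs1 : (3 : ℝ) / 2 < (s - 1).re := by
      rw [Complex.sub_re, Complex.one_re]
      linarith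
    refine (congrArg (fun g => HasProd g (F (s - 1))) (funext fun v => ?_)).mp (hFp (s - 1) hs1)
    by_cases hv : ((N * D : ℤ) : 𝓞 K) ∈ v.asIdeal
    · rw [if_pos hv, if_pos hv]
    · rw [if_neg hv, if_neg hv, Fin.prod_univ_two]
      have e : ∏ j, (1 - ω v j * (qv K v : ℂ) ^ (-s))⁻¹ =
          (dn K a b v (s - 1))⁻¹ * (dn K a' b' v (s - 1))⁻¹ := by
        rw [Finset.prod_inv_distrib, (hω v hv).2 s, mul_inv]
      rw [e]
      rfl
  · have : (2 : ℂ) - 1 = 1 := by norm_num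
    simp only [this]
    exact hF1

end Pool.Agent.N844.QG
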