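import Pool.Agent.N844.QG.Lf

/-!
The `L`-function of the third cohomology of a threefold over `ℚ`, if the numbers of points over
the finite fields are given by two elliptic curves.
-/

set_option autoImplicit false

namespace Pool.Agent.N844.QG

open Finset Matrix
open Pool.Agent.H82R3.EK (luc luc_eq card_points)
open Pool.Agent.N844.QP
open scoped Classical

/-- the factor of an elliptic curve -/
noncomputable def dp1 (a b : ℤ) (p : ℕ) (s : ℂ) : ℂ :=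
  1 - (tp a b p : ℂ) * (p : ℂ) ^ (-s) + (p : ℂ) ^ (1 - 2 * s)

lemma dp1_differentiable (a b : ℤ) {p : ℕ} (hp : p.Prime) : Differentiable ℂ (dp1 a b p) := by
  have hp0 : (p : ℂ) ≠ 0 := Nat.cast_ne_zero.2 hp.ne_zero
  have h1 : Differentiable ℂ fun s : ℂ => (p : ℂ) ^ (-s) := fun s =>
    (differentiableAt_id.neg).const_cpow (Or.inl hp0)
  have h2 : Differentiable ℂ fun s : ℂ => (p : ℂ) ^ (1 - 2 * s) := fun s =>
    ((differentiableAt_const 1).sub (differentiableAt_id.const_mul 2)).const_cpow (Or.inl hp0)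
  exact ((differentiable_const 1).sub (h1.const_mul (tp a b p : ℂ))).add h2

lemma dp1_ne {a b : ℤ} {p : ℕ} (hp : p.Prime) (h2 : p ≠ 2) {s : ℂ}
    (hs : 1 / 2 < s.re) : dp1 a b p s ≠ 0 := by
  have : Fact p.Prime := ⟨hp⟩
  obtain ⟨α, β, h1, h2, h3, h4⟩ := eigenW h2 a b
  have hp0 : (p : ℂ) ≠ 0 := Nat.cast_ne_zero.2 hp.ne_zero
  have hpr : (1 : ℝ) < p := by exact_mod_cast hp.one_lt
  have hpp : (0 : ℝ) < p := by linarith
  have e : dp1 a b p s = (1 - α * (p : ℂ) ^ (-s)) * (1 - β * (p : ℂ) ^ (-s)) := by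
    have e2 : (p : ℂ) ^ (1 - 2 * s) = (p : ℂ) * ((p : ℂ) ^ (-s)) ^ 2 := by
      rw [show 1 - 2 * s = 1 + (-s + -s) by ring, Complex.cpow_add _ _ hp0,
        Complex.cpow_add _ _ hp0, Complex.cpow_one]
      ring
    unfold dp1
    rw [e2, ← h1, ← h2]
    ring
  have hlt : ∀ γ : ℂ, ‖γ‖ = Real.sqrt p → 1 - γ * (p : ℂ) ^ (-s) ≠ 0 := by
    intro γ hγ h0
    have h5 : γ * (p : ℂ) ^ (-s) = 1 := by linear_combination - h0
    have h6 : ‖γ * (p : ℂ) ^ (-s)‖ = (p : ℝ) ^ (1 / 2 - s.re) := by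
      rw [norm_mul, hγ, Complex.norm_natCast_cpow_of_pos hp.pos, Complex.neg_re,
        Real.sqrt_eq_rpow, ← Real.rpow_add hpp]
      ring_nf
    rw [h5, norm_one] at h6
    have h7 : (p : ℝ) ^ (1 / 2 - s.re) < 1 :=
      Real.rpow_lt_one_of_one_lt_of_neg hpr (by linarith)
    linarith
  rw [e]
  exact mul_ne_zero (hlt α h3) (hlt β h4)

/-- the `L`-function of the elliptic curve without the factors at the primes dividing `N` -/
theorem removeW {a b N : ℤ} (hN : N ≠ 0)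
    (hb : ∀ p : ℕ, p.Prime → (p : ℤ) ∣ 2 * (4 * a ^ 3 + 27 * b ^ 2) → (p : ℤ) ∣ N) {G : ℂ → ℂ}
    (hG : Differentiable ℂ G)
    (hprod : ∀ s : ℂ, (3 : ℝ) / 2 < s.re → HasProd (fun p : ℕ =>
      if p.Prime ∧ ¬ ((p : ℤ) ∣ 2 * (-4 * a ^ 3 - 27 * b ^ 2)) then
        (1 - ((p : ℂ) - (Nat.card {q : ZMod p × ZMod p //
            q.2 ^ 2 = q.1 ^ 3 + (a : ZMod p) * q.1 + (b : ZMod p)} : ℂ))
            * (p : ℂ) ^ (-s) + (p : ℂ) ^ (1 - 2 * s))⁻¹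
      else 1) (G s))
    (h1 : G 1 ≠ 0) :
    ∃ H : ℂ → ℂ, Differentiable ℂ H ∧ (∀ s : ℂ, (3 : ℝ) / 2 < s.re →
      HasProd (fun p : ℕ => if p.Prime ∧ ¬ (p : ℤ) ∣ N then (dp1 a b p s)⁻¹ else 1) (H s)) ∧
      H 1 ≠ 0 := by
  have hbad : ∀ p : ℕ, ((p : ℤ) ∣ 2 * (-4 * a ^ 3 - 27 * b ^ 2)) ↔
      ((p : ℤ) ∣ 2 * (4 * a ^ 3 + 27 * b ^ 2)) := by
    intro p
    rw [show 2 * (-4 * a ^ 3 - 27 * b ^ 2) = -(2 * (4 * a ^ 3 + 27 * b ^ 2)) by ring, dvd_neg]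
  set S : Finset ℕ := N.natAbs.primeFactors.filter fun p =>
    ¬ (p : ℤ) ∣ 2 * (4 * a ^ 3 + 27 * b ^ 2) with hS
  have hSp : ∀ p ∈ S, p.Prime ∧ ¬ (p : ℤ) ∣ 2 * (4 * a ^ 3 + 27 * b ^ 2) := fun p hp =>
    ⟨Nat.prime_of_mem_primeFactors (Finset.mem_filter.1 hp).1, (Finset.mem_filter.1 hp).2⟩
  have hmem : ∀ p : ℕ, p.Prime →
      (p ∈ S ↔ ((p : ℤ) ∣ N ∧ ¬ (p : ℤ) ∣ 2 * (4 * a ^ 3 + 27 * b ^ 2))) := by
    intro p hp
    rw [hS, Finset.mem_filter, Nat.mem_primeFactors]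
    have h30 : N.natAbs ≠ 0 := Int.natAbs_ne_zero.2 hN
    constructor
    · rintro ⟨⟨_, h3, _⟩, h4⟩
      exact ⟨Int.natCast_dvd.2 h3, h4⟩
    · rintro ⟨h3, h4⟩
      exact ⟨⟨hp, Int.natCast_dvd.1 h3, h30⟩, h4⟩
  refine ⟨fun s => G s * ∏ p ∈ S, dp1 a b p s, ?_, ?_, ?_⟩
  · refine hG.mul (Differentiable.fun_finsetProd fun p hp => ?_)
    exact dp1_differentiable a b (hSp p hp).1
  · intro s hs
    have hs2 : 1 / 2 < s.re := by
      have : (3 : ℝ) / 2 < s.re := hs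
      linarith
    have h3 : HasProd (fun p : ℕ => if p ∈ S then dp1 a b p s else 1) (∏ p ∈ S, dp1 a b p s) := by
      have h4 : HasProd (fun p : ℕ => if p ∈ S then dp1 a b p s else 1)
          (∏ p ∈ S, if p ∈ S then dp1 a b p s else 1) :=
        hasProd_prod_of_ne_finset_one (fun p hp => if_neg hp)
      have h5 : ∏ p ∈ S, (if p ∈ S then dp1 a b p s else 1) = ∏ p ∈ S, dp1 a b p s :=
        Finset.prod_congr rfl fun p hp => if_pos hp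
      rw [h5] at h4
      exact h4
    have h4 := (hprod s hs).mul h3
    refine (congrArg (fun g => HasProd g (G s * ∏ p ∈ S, dp1 a b p s)) (funext fun p => ?_)).mp h4
    by_cases hp : p.Prime
    · by_cases hn : (p : ℤ) ∣ 2 * (4 * a ^ 3 + 27 * b ^ 2)
      · have hMn : (p : ℤ) ∣ N := hb p hp hn
        rw [if_neg (fun h => h.2 ((hbad p).2 hn)), if_neg (fun h => ((hmem p hp).1 h).2 hn),
          if_neg (fun h => h.2 hMn), one_mul]
      · rw [if_pos ⟨hp, fun h => hn ((hbad p).1 h)⟩]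
        have e : (1 - ((p : ℂ) - (Nat.card {q : ZMod p × ZMod p //
            q.2 ^ 2 = q.1 ^ 3 + (a : ZMod p) * q.1 + (b : ZMod p)} : ℂ))
            * (p : ℂ) ^ (-s) + (p : ℂ) ^ (1 - 2 * s)) = dp1 a b p s := by
          unfold dp1 tp
          push_cast
          rfl
        rw [e]
        by_cases hMp : (p : ℤ) ∣ N
        · rw [if_pos ((hmem p hp).2 ⟨hMp, hn⟩), if_neg (fun h => h.2 hMp),
            inv_mul_cancel₀ (dp1_ne hp (two_ne_of hn) hs2)]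
        · rw [if_neg (fun h => hMp ((hmem p hp).1 h).1), if_pos ⟨hp, hMp⟩, mul_one]
    · rw [if_neg (fun h => hp h.1), if_neg (fun h => hp (hSp p h).1), if_neg (fun h => hp h.1),
        one_mul]
  · refine mul_ne_zero h1 (Finset.prod_ne_zero_iff.2 fun p hp => ?_)
    exact dp1_ne (hSp p hp).1 (two_ne_of (hSp p hp).2) (by norm_num)

/-- `ω` are the eigenvalues of Frobenius at `p` on the third cohomology -/
def IsFrobP (A B : Matrix (Fin 6) (Fin 6) ℤ) (p : ℕ) (ω : Fin 4 → ℂ) : Prop :=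
  (∀ j, ‖ω j‖ = (p : ℝ) ^ ((3 : ℝ) / 2)) ∧
    ∀ (k : Type) [Field k] [Fintype k] [CharP k p] (r : ℕ), Fintype.card k = p ^ r →
      (numP (A.map (Int.castRingHom k)) (B.map (Int.castRingHom k)) : ℂ) =
        1 + (p : ℂ) ^ r + (p : ℂ) ^ (2 * r) + (p : ℂ) ^ (3 * r) - ∑ j, ω j ^ r

theorem frobP {N a b a' b' : ℤ} {A B : Matrix (Fin 6) (Fin 6) ℤ} (hS : Split N a b a' b' A B)
    {p : ℕ} (hp : p.Prime) (h : ¬ (p : ℤ) ∣ N) :
    ∃ ω : Fin 4 → ℂ, IsFrobP A B p ω ∧ ∀ s : ℂ, ∏ j, (1 - ω j * (p : ℂ) ^ (-s)) =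
      dp1 a b p (s - 1) * dp1 a' b' p (s - 1) := by
  have : Fact p.Prime := ⟨hp⟩
  have hn : ¬ (p : ℤ) ∣ 2 * (4 * a ^ 3 + 27 * b ^ 2) := fun h0 => h (hS.h1 p hp h0)
  have hn' : ¬ (p : ℤ) ∣ 2 * (4 * a' ^ 3 + 27 * b' ^ 2) := fun h0 => h (hS.h2 p hp h0)
  obtain ⟨α, β, a1, a2, a3, a4⟩ := eigenW (two_ne_of hn) a b
  obtain ⟨α', β', b1, b2, b3, b4⟩ := eigenW (two_ne_of hn) a' b'
  have hp0 : (0 : ℝ) < p := by exact_mod_cast hp.pos
  have hpc : (p : ℂ) ≠ 0 := Nat.cast_ne_zero.2 hp.ne_zero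
  have hpw : (p : ℝ) * Real.sqrt p = (p : ℝ) ^ ((3 : ℝ) / 2) := by
    rw [Real.sqrt_eq_rpow, show ((3 : ℝ) / 2) = 1 + 1 / 2 by norm_num, Real.rpow_add hp0,
      Real.rpow_one]
  refine ⟨![p * α, p * β, p * α', p * β'], ⟨?_, ?_⟩, ?_⟩
  · intro j
    fin_cases j <;>
      simp only [Fin.mk_zero, Fin.mk_one, Fin.reduceFinMk, Matrix.cons_val_zero,
        Matrix.cons_val_one, Matrix.cons_val, norm_mul, a3, a4, b3, b4, Complex.norm_natCast] <;>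
      exact hpw
  · intro k _ _ _ r hr
    have h6 := hS.num p k hp h
    rw [SK_luc hn k r hr, SK_luc hn' k r hr, hr] at h6
    have h7 := congrArg (fun z : ℤ => (z : ℂ)) h6
    push_cast at h7
    rw [luc_eq a1 (by rw [a2]; norm_cast), luc_eq b1 (by rw [b2]; norm_cast)] at h7
    rw [h7]
    simp only [Fin.sum_univ_four, Matrix.cons_val_zero, Matrix.cons_val_one, Matrix.cons_val]
    rw [mul_pow, mul_pow, mul_pow, mul_pow]
    ring
  · intro s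
    simp only [Fin.prod_univ_four, Matrix.cons_val_zero, Matrix.cons_val_one, Matrix.cons_val]
    have e1 : (p : ℂ) ^ (-(s - 1)) = p * (p : ℂ) ^ (-s) := by
      rw [show -(s - 1) = 1 + -s by ring, Complex.cpow_add _ _ hpc, Complex.cpow_one]
    have e2 : (p : ℂ) ^ (1 - 2 * (s - 1)) = (p : ℂ) ^ 3 * ((p : ℂ) ^ (-s)) ^ 2 := by
      have h3 : (p : ℂ) ^ 3 = (p : ℂ) ^ (3 : ℂ) := by
        rw [← Complex.cpow_natCast]
        norm_num
      rw [show 1 - 2 * (s - 1) = 3 + (-s + -s) by ring, Complex.cpow_add _ _ hpc,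
        Complex.cpow_add _ _ hpc, h3]
      ring
    have e3 : dp1 a b p (s - 1) = (1 - (p : ℂ) * α * (p : ℂ) ^ (-s)) *
        (1 - (p : ℂ) * β * (p : ℂ) ^ (-s)) := by
      unfold dp1
      rw [e1, e2, ← a1]
      have : (p : ℂ) ^ 3 = (p : ℂ) ^ 2 * (α * β) := by rw [a2]; ring
      rw [this]
      ring
    have e4 : dp1 a' b' p (s - 1) = (1 - (p : ℂ) * α' * (p : ℂ) ^ (-s)) *
        (1 - (p : ℂ) * β' * (p : ℂ) ^ (-s)) := by
      unfold dp1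
      rw [e1, e2, ← b1]
      have : (p : ℂ) ^ 3 = (p : ℂ) ^ 2 * (α' * β') := by rw [b2]; ring
      rw [this]
      ring
    rw [e3, e4]
    ring

/-- the `L`-function of the third cohomology over `ℚ` -/
theorem eulerQ {N a b a' b' : ℤ} (hN : N ≠ 0) {A B : Matrix (Fin 6) (Fin 6) ℤ}
    (hS : Split N a b a' b' A B)
    (hE : ∃ F : ℂ → ℂ, Pool.Agent.Y19.QT.IsLFun a b F ∧ F 1 ≠ 0)
    (hE' : ∃ F : ℂ → ℂ, Pool.Agent.Y19.QT.IsLFun a' b' F ∧ F 1 ≠ 0) :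
    ∃ ω : ℕ → Fin 4 → ℂ,
      (∀ p : ℕ, p.Prime → ¬ (p : ℤ) ∣ N → IsFrobP A B p (ω p)) ∧
      ∃ L : ℂ → ℂ, Differentiable ℂ L ∧
        (∀ s : ℂ, (5 : ℝ) / 2 < s.re →
          HasProd (fun p : ℕ => if p.Prime ∧ ¬ (p : ℤ) ∣ N then
            ∏ j, (1 - ω p j * (p : ℂ) ^ (-s))⁻¹ else 1) (L s)) ∧ L 2 ≠ 0 := by
  obtain ⟨G, ⟨g1, g2⟩, g3⟩ := hE
  obtain ⟨G', ⟨g1', g2'⟩, g3'⟩ := hE'
  obtain ⟨H, a1, a2, a3⟩ := removeW hN hS.h1 g1 g2 g3
  obtain ⟨H', b1, b2, b3⟩ := removeW hN hS.h2 g1' g2' g3'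
  have hex : ∀ p : ℕ, ∃ ω : Fin 4 → ℂ, (p.Prime ∧ ¬ (p : ℤ) ∣ N) →
      (IsFrobP A B p ω ∧ ∀ s : ℂ, ∏ j, (1 - ω j * (p : ℂ) ^ (-s)) =
        dp1 a b p (s - 1) * dp1 a' b' p (s - 1)) := by
    intro p
    by_cases hp : p.Prime ∧ ¬ (p : ℤ) ∣ N
    · obtain ⟨ω, h⟩ := frobP hS hp.1 hp.2
      exact ⟨ω, fun _ => h⟩
    · exact ⟨fun _ => 0, fun h => absurd h hp⟩
  choose ω hω using hex
  refine ⟨ω, fun p hp h => (hω p ⟨hp, h⟩).1, fun s => H (s - 1) * H' (s - 1), ?_, ?_, ?_⟩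
  · exact (a1.comp (differentiable_id.sub_const 1)).mul (b1.comp (differentiable_id.sub_const 1))
  · intro s hs
    have hs1 : (3 : ℝ) / 2 < (s - 1).re := by
      rw [Complex.sub_re, Complex.one_re]
      linarith
    have h2 := (a2 (s - 1) hs1).mul (b2 (s - 1) hs1)
    refine (congrArg (fun g => HasProd g (H (s - 1) * H' (s - 1))) (funext fun p => ?_)).mp h2
    by_cases hp : p.Prime ∧ ¬ (p : ℤ) ∣ N
    · rw [if_pos hp, if_pos hp, if_pos hp, Finset.prod_inv_distrib, (hω p hp).2 s, mul_inv]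
    · rw [if_neg hp, if_neg hp, if_neg hp, one_mul]
  · have : (2 : ℂ) - 1 = 1 := by norm_num
    simp only [this]
    exact mul_ne_zero a3 b3

end Pool.Agent.N844.QG
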