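import Pool.Agent.N844.QP.Pencil

/-!
Integral pencils of quadrics in `P⁵` with the discriminant `c ∏ (w_i x² - u_i)`: smoothness and the number
of points over the finite fields.
-/

set_option autoImplicit false

namespace Pool.Agent.N844.QG

open Finset Matrix Polynomial
open scoped LinearAlgebra.Projectivization
open Pool.Agent.N844.QP

/-- the pencils with the discriminant curve `y² = c ∏ (w_i x² - u_i)` -/
structure IsPen (c : ℤ) (w u : Fin 3 → ℤ) (A B : Matrix (Fin 6) (Fin 6) ℤ) : Prop where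
  symA : A.IsSymm
  symB : B.IsSymm
  disc : ∀ x : ℤ, -(x • A - B).det = c * ∏ i, (w i * x ^ 2 - u i)

/-- the discriminant polynomial -/
noncomputable def ds {R : Type*} [CommRing R] (c : R) (w u : Fin 3 → R) : R[X] :=
  C (-c) * ∏ i, (C (w i) * X ^ 2 - C (u i))

lemma ds_eval {R : Type*} [CommRing R] (c : R) (w u : Fin 3 → R) (x : R) :
    (ds c w u).eval x = -c * ∏ i, (w i * x ^ 2 - u i) := by
  unfold ds
  rw [eval_mul, eval_C, eval_prod]
  congr 1
  refine Finset.prod_congr rfl fun i _ => ?_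
  simp only [eval_sub, eval_mul, eval_pow, eval_X, eval_C]

lemma ds_coeff {R : Type*} [CommRing R] (c : R) (w u : Fin 3 → R) :
    (ds c w u).coeff 6 = -c * ∏ i, w i := by
  have e : ds c w u = C (-c * (w 0 * w 1 * w 2)) * X ^ 6 +
      C (c * (u 0 * w 1 * w 2 + w 0 * u 1 * w 2 + w 0 * w 1 * u 2)) * X ^ 4 +
      C (-c * (w 0 * u 1 * u 2 + u 0 * w 1 * u 2 + u 0 * u 1 * w 2)) * X ^ 2 +
      C (c * (u 0 * u 1 * u 2)) := by
    unfold ds
    rw [Fin.prod_univ_three]
    simp only [C_mul, C_neg, C_add]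
    ring
  rw [e, Fin.prod_univ_three]
  simp only [coeff_add, coeff_C_mul, coeff_X_pow, coeff_C]
  norm_num

lemma ds_map {R S : Type*} [CommRing R] [CommRing S] (f : R →+* S) (c : R) (w u : Fin 3 → R) :
    (ds c w u).map f = ds (f c) (fun i => f (w i)) (fun i => f (u i)) := by
  unfold ds
  rw [Polynomial.map_mul, map_C, Polynomial.map_prod, map_neg]
  congr 1
  refine Finset.prod_congr rfl fun i _ => ?_
  simp only [Polynomial.map_sub, Polynomial.map_mul, Polynomial.map_pow, map_C, map_X]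

lemma IsPen.dp_eq {c : ℤ} {w u : Fin 3 → ℤ} {A B : Matrix (Fin 6) (Fin 6) ℤ}
    (h : IsPen c w u A B) : dp A B = ds c w u := by
  apply Polynomial.funext
  intro x
  have h1 := h.disc x
  rw [Fin.prod_univ_three] at h1
  rw [dp_eval, ds_eval, Fin.prod_univ_three]
  linear_combination - h1

section field

variable {k : Type*} [Field k]

/-- the conditions on the parameters in the field -/
structure Gd (c : k) (w u : Fin 3 → k) : Prop where
  two : (2 : k) ≠ 0
  hc : c ≠ 0
  hw : ∀ i, w i ≠ 0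
  hu : ∀ i, u i ≠ 0
  d01 : w 0 * u 1 - w 1 * u 0 ≠ 0
  d02 : w 0 * u 2 - w 2 * u 0 ≠ 0
  d12 : w 1 * u 2 - w 2 * u 1 ≠ 0

lemma Gd.der {c : k} {w u : Fin 3 → k} (h : Gd c w u) (x : k) (hx : (ds c w u).eval x = 0) :
    (ds c w u).derivative.eval x ≠ 0 := by
  have e : (ds c w u).derivative.eval x =
      -c * (2 * w 0 * x * (w 1 * x ^ 2 - u 1) * (w 2 * x ^ 2 - u 2) +
        (w 0 * x ^ 2 - u 0) * (2 * w 1 * x) * (w 2 * x ^ 2 - u 2) +
        (w 0 * x ^ 2 - u 0) * (w 1 * x ^ 2 - u 1) * (2 * w 2 * x)) := by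
    unfold ds
    rw [Fin.prod_univ_three]
    simp only [derivative_mul, derivative_C, derivative_sub, derivative_pow,
      derivative_X, eval_add, eval_mul, eval_sub, eval_pow, eval_X, eval_C,
      zero_mul, zero_add, mul_one, sub_zero, map_natCast, eval_natCast]
    push_cast
    ring
  rw [ds_eval, Fin.prod_univ_three] at hx
  have hx' := (mul_eq_zero.1 hx).resolve_left (neg_ne_zero.2 h.hc)
  rw [e]
  have hx0 : x ≠ 0 := by
    rintro rfl
    have : u 0 * u 1 * u 2 = 0 := by linear_combination -hx'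
    exact mul_ne_zero (mul_ne_zero (h.hu 0) (h.hu 1)) (h.hu 2) this
  have h2 := h.two
  rcases mul_eq_zero.1 hx' with h1 | h1
  · rcases mul_eq_zero.1 h1 with h1 | h1
    · -- the first factor
      have e1 : w 1 * x ^ 2 - u 1 ≠ 0 := fun h3 => h.d01 (by linear_combination w 1 * h1 - w 0 * h3)
      have e2 : w 2 * x ^ 2 - u 2 ≠ 0 := fun h3 => h.d02 (by linear_combination w 2 * h1 - w 0 * h3)
      rw [h1]
      have : -c * (2 * w 0 * x * (w 1 * x ^ 2 - u 1) * (w 2 * x ^ 2 - u 2) +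
        0 * (2 * w 1 * x) * (w 2 * x ^ 2 - u 2) +
        0 * (w 1 * x ^ 2 - u 1) * (2 * w 2 * x)) =
        -c * (2 * w 0 * x * (w 1 * x ^ 2 - u 1) * (w 2 * x ^ 2 - u 2)) := by ring
      rw [this]
      exact mul_ne_zero (neg_ne_zero.2 h.hc) (mul_ne_zero (mul_ne_zero (mul_ne_zero (mul_ne_zero h2
        (h.hw 0)) hx0) e1) e2)
    · have e1 : w 0 * x ^ 2 - u 0 ≠ 0 := fun h3 => h.d01 (by linear_combination w 1 * h3 - w 0 * h1)
      have e2 : w 2 * x ^ 2 - u 2 ≠ 0 := fun h3 => h.d12 (by linear_combination w 2 * h1 - w 1 * h3)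
      rw [h1]
      have : -c * (2 * w 0 * x * 0 * (w 2 * x ^ 2 - u 2) +
        (w 0 * x ^ 2 - u 0) * (2 * w 1 * x) * (w 2 * x ^ 2 - u 2) +
        (w 0 * x ^ 2 - u 0) * 0 * (2 * w 2 * x)) =
        -c * ((w 0 * x ^ 2 - u 0) * (2 * w 1 * x) * (w 2 * x ^ 2 - u 2)) := by ring
      rw [this]
      exact mul_ne_zero (neg_ne_zero.2 h.hc) (mul_ne_zero (mul_ne_zero e1 (mul_ne_zero
        (mul_ne_zero h2 (h.hw 1)) hx0)) e2)
  · have e1 : w 0 * x ^ 2 - u 0 ≠ 0 := fun h3 => h.d02 (by linear_combination w 2 * h3 - w 0 * h1)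
    have e2 : w 1 * x ^ 2 - u 1 ≠ 0 := fun h3 => h.d12 (by linear_combination w 2 * h3 - w 1 * h1)
    rw [h1]
    have : -c * (2 * w 0 * x * (w 1 * x ^ 2 - u 1) * 0 +
      (w 0 * x ^ 2 - u 0) * (2 * w 1 * x) * 0 +
      (w 0 * x ^ 2 - u 0) * (w 1 * x ^ 2 - u 1) * (2 * w 2 * x)) =
      -c * ((w 0 * x ^ 2 - u 0) * (w 1 * x ^ 2 - u 1) * (2 * w 2 * x)) := by ring
    rw [this]
    exact mul_ne_zero (neg_ne_zero.2 h.hc) (mul_ne_zero (mul_ne_zero e1 e2) (mul_ne_zero
      (mul_ne_zero h2 (h.hw 2)) hx0))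

variable {c : ℤ} {w u : Fin 3 → ℤ} {A B : Matrix (Fin 6) (Fin 6) ℤ}

lemma IsPen.dpk (h : IsPen c w u A B) :
    dp (A.map (Int.castRingHom k)) (B.map (Int.castRingHom k)) =
      ds (c : k) (fun i => (w i : k)) (fun i => (u i : k)) := by
  rw [dp_map, h.dp_eq, ds_map]
  simp

lemma IsPen.detk (h : IsPen c w u A B) :
    (A.map (Int.castRingHom k)).det = -(c : k) * ∏ i, (w i : k) := by
  rw [← dp_coeff (A.map (Int.castRingHom k)) (B.map (Int.castRingHom k)), h.dpk, ds_coeff]

lemma IsPen.symk (h : IsPen c w u A B) :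
    (A.map (Int.castRingHom k)).IsSymm ∧ (B.map (Int.castRingHom k)).IsSymm :=
  ⟨h.symA.map _, h.symB.map _⟩

lemma IsPen.detk_ne (h : IsPen c w u A B)
    (hg : Gd (c : k) (fun i => (w i : k)) (fun i => (u i : k))) :
    (A.map (Int.castRingHom k)).det ≠ 0 := by
  rw [h.detk]
  exact mul_ne_zero (neg_ne_zero.2 hg.hc) (Finset.prod_ne_zero_iff.2 fun i _ => hg.hw i)

/-- smoothness -/
theorem IsPen.smooth (h : IsPen c w u A B)
    (hg : Gd (c : k) (fun i => (w i : k)) (fun i => (u i : k)))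
    {y : Fin 6 → k} (hy : y ≠ 0) (h6 : qf (A.map (Int.castRingHom k)) y = 0)
    (h7 : qf (B.map (Int.castRingHom k)) y = 0) :
    LinearIndependent k ![A.map (Int.castRingHom k) *ᵥ y, B.map (Int.castRingHom k) *ᵥ y] := by
  refine Pool.Agent.N844.QP.smooth h.symk.1 h.symk.2 (h.detk_ne hg) ?_ hy h6 h7
  intro x hx
  rw [h.dpk] at hx ⊢
  exact hg.der x hx

variable [Fintype k] [DecidableEq k]

/-- the character sums of the two elliptic curves -/
def T1 (c : k) (w u : Fin 3 → k) : ℤ := ∑ t : k, quadraticChar k (c * ∏ i, (w i * t - u i))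

/-- the character sums of the two elliptic curves -/
def T2 (c : k) (w u : Fin 3 → k) : ℤ := ∑ t : k, quadraticChar k (c * ∏ i, (w i - u i * t))

/-- the sum over the pencil -/
theorem sum_T (hk : ringChar k ≠ 2) (c : k) (w u : Fin 3 → k) :
    ∑ x : k, quadraticChar k (c * ∏ i, (w i * x ^ 2 - u i)) + quadraticChar k (c * ∏ i, w i) =
      T1 c w u + T2 c w u := by
  have e1 : ∑ x : k, quadraticChar k (c * ∏ i, (w i * x ^ 2 - u i)) =
      T1 c w u + ∑ t : k, quadraticChar k (t * (c * ∏ i, (w i * t - u i))) := by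
    have h := sum_sq hk (fun t : k => quadraticChar k (c * ∏ i, (w i * t - u i)))
    rw [h]
    unfold T1
    rw [← Finset.sum_add_distrib]
    refine Finset.sum_congr rfl fun t _ => ?_
    rw [map_mul (quadraticChar k) t, Int.cast_id]
    ring
  have e2 : ∑ t : k, quadraticChar k (t * (c * ∏ i, (w i * t - u i))) =
      T2 c w u - quadraticChar k (c * ∏ i, w i) := by
    rw [sum_inv _ (by simp)]
    unfold T2
    rw [← Finset.add_sum_erase univ (fun v : k => quadraticChar k (c * ∏ i, (w i - u i * v)))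
      (mem_univ 0), ← Finset.add_sum_erase univ _ (mem_univ (0 : k))]
    rw [if_pos rfl, zero_add]
    have e3 : (c * ∏ i, (w i - u i * 0) : k) = c * ∏ i, w i := by
      simp only [mul_zero, sub_zero]
    rw [e3, add_sub_cancel_left]
    refine Finset.sum_congr rfl fun v hv => ?_
    have hv0 : v ≠ 0 := Finset.ne_of_mem_erase hv
    rw [if_neg hv0, ← chi_sq (pow_ne_zero 2 hv0)]
    congr 1
    rw [Fin.prod_univ_three, Fin.prod_univ_three]
    field_simp
  rw [e1, e2]
  ring

/-- the number of points -/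
theorem IsPen.numP (h : IsPen c w u A B)
    (hg : Gd (c : k) (fun i => (w i : k)) (fun i => (u i : k))) :
    (numP (A.map (Int.castRingHom k)) (B.map (Int.castRingHom k)) : ℤ) =
      1 + Fintype.card k + (Fintype.card k : ℤ) ^ 2 + (Fintype.card k : ℤ) ^ 3 +
        Fintype.card k * (T1 (c : k) (fun i => (w i : k)) (fun i => (u i : k)) +
          T2 (c : k) (fun i => (w i : k)) (fun i => (u i : k))) := by
  classical
  have hk : ringChar k ≠ 2 := by
    intro h0
    apply hg.two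
    have := ringChar.spec k 2
    rw [h0] at this
    exact_mod_cast this.2 dvd_rfl
  set Ak := A.map (Int.castRingHom k) with hAk
  set Bk := B.map (Int.castRingHom k) with hBk
  have hA0 : Ak.det ≠ 0 := h.detk_ne hg
  have hcount := count_sym hk 1 Ak Bk h.symk.1 h.symk.2 hA0 (by
    intro x hx
    rw [h.dpk] at hx ⊢
    exact hg.der x hx)
  set S : ℤ := T1 (c : k) (fun i => (w i : k)) (fun i => (u i : k)) +
          T2 (c : k) (fun i => (w i : k)) (fun i => (u i : k)) with hS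
  have hs : (∑ x : k, quadraticChar k ((-1) ^ (1 + 2) * (dp Ak Bk).eval x) +
      quadraticChar k ((-1) ^ (1 + 2) * Ak.det)) = S := by
    rw [hS, ← sum_T hk]
    congr 1
    · refine Finset.sum_congr rfl fun x _ => ?_
      rw [h.dpk, ds_eval]
      congr 1
      ring
    · rw [h.detk]
      congr 1
      ring
  rw [hs] at hcount
  have e2 : ((univ.filter fun y : Fin 6 → k => qf Bk y = 0 ∧ qf Ak y = 0).card : ℤ) =
      (Nat.card {v : Fin 6 → k // v ≠ 0 ∧ (qf Ak v = 0 ∧ qf Bk v = 0)} : ℤ) + 1 := by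
    have e4 : (univ.filter fun y : Fin 6 → k => qf Bk y = 0 ∧ qf Ak y = 0) =
        insert 0 (univ.filter fun y : Fin 6 → k => y ≠ 0 ∧ (qf Ak y = 0 ∧ qf Bk y = 0)) := by
      ext y
      simp only [Finset.mem_filter, Finset.mem_univ, true_and, Finset.mem_insert]
      by_cases hy : y = 0
      · subst hy
        simp [qf]
      · simp [hy, and_comm]
    rw [e4, Finset.card_insert_of_notMem (by simp)]
    push_cast
    congr 2
    rw [Nat.card_eq_fintype_card, Fintype.card_subtype]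
  have hcone : ∀ (c : kˣ) (v : Fin 6 → k), (qf Ak (c • v) = 0 ∧ qf Bk (c • v) = 0) ↔
      (qf Ak v = 0 ∧ qf Bk v = 0) := by
    intro c v
    rw [Units.smul_def, qf_smul, qf_smul]
    have hc0 : (c : k) ^ 2 ≠ 0 := pow_ne_zero 2 c.ne_zero
    simp [hc0]
  have hcount' : ((univ.filter fun y : Fin 6 → k => qf Bk y = 0 ∧ qf Ak y = 0).card : ℤ) =
      (Fintype.card k : ℤ) ^ 4 + (Fintype.card k : ℤ) * ((Fintype.card k : ℤ) - 1) * S := by
    have := hcount
    rw [pow_one] at this
    exact this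
  rw [e2, proj_card (k := k) (fun v => qf Ak v = 0 ∧ qf Bk v = 0) hcone] at hcount'
  have hq : 1 < Fintype.card k := Fintype.one_lt_card
  have hq1 : ((Fintype.card k : ℤ) - 1) ≠ 0 := by
    have : (1 : ℤ) < Fintype.card k := by exact_mod_cast hq
    omega
  push_cast [Nat.cast_sub hq.le] at hcount'
  apply mul_left_cancel₀ hq1
  unfold Pool.Agent.N844.QP.numP
  linear_combination hcount'

end field

end Pool.Agent.N844.QG
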