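import Pool.Agent.N844.QG.F17
import Pool.Agent.N844.QG.L17
import Pool.Agent.Y667.BKP.Main

/-!
# Intersections of two quadrics for the twists of the curve of conductor `17`, over multiquadratic fields
-/

set_option autoImplicit false

open NumberField IsDedekindDomain Matrix WeierstrassCurve

namespace Pool.Agent.N844.QG.T17

open scoped Classical
open Pool.Agent.N844.QG.F17 (cA cB GA)
open Pool.Agent.Y667.BKP (H1f IsV PSeq Fix exists_rat)
open Pool.Agent.TH841.SH.D (Gal act)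
open Pool.Agent.TH841.NF (EF)

/-- no nonzero vector of `V_p(W)` is fixed by the Galois group, if there are finitely many points -/
theorem h0_zero {F : Type} [Field F] [NumberField F] {p : ℕ} (hp : p.Prime)
    {W : WeierstrassCurve F} (hfin : Finite W.toAffine.Point) (x : PSeq W) (hx : IsV p W x)
    (hf : ∀ (σ : Gal F) (n : ℕ), act W σ.toAlgHom (x n) = x n) : x = 0 := by
  have hFix : Finite (Fix fun σ : Gal F => act W σ.toAlgHom) := by
    obtain ⟨j, -, -, hj⟩ := exists_rat W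
    refine Finite.of_surjective (α := {q : W.toAffine.Point // ∀ σ : Gal F,
      act W σ.toAlgHom (j q) = j q}) (fun q => ⟨j q.1, q.2⟩) (fun P => ?_)
    obtain ⟨q, hq⟩ := hj P.1 P.2
    refine ⟨⟨q, ?_⟩, Subtype.ext hq⟩
    rw [hq]
    exact P.2
  obtain ⟨N, hN⟩ : ∃ N : ℕ, N = Nat.card (Fix fun σ : Gal F => act W σ.toAlgHom) := ⟨_, rfl⟩
  have hN0 : N ≠ 0 := by
    rw [hN]
    exact Nat.card_pos.ne'
  obtain ⟨v, N', hndvd, hNv⟩ := Nat.exists_eq_pow_mul_and_not_dvd hN0 p hp.ne_one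
  have hpow : ∀ n k : ℕ, (p ^ k : ℕ) • x (n + k) = x n := by
    intro n k
    induction k with
    | zero => simp
    | succ k ih =>
      rw [pow_succ, mul_smul, ← add_assoc, (hx (n + k)).1, ih]
  funext n
  have hy : ∀ σ : Gal F, act W σ.toAlgHom (x (n + v)) = x (n + v) := fun σ => hf σ (n + v)
  obtain ⟨K, hK⟩ := (hx (n + v)).2
  have hNy : N • x (n + v) = 0 := by
    have h1 : N • (⟨x (n + v), hy⟩ : Fix fun σ : Gal F => act W σ.toAlgHom) = 0 := by
      rw [hN]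
      exact card_nsmul_eq_zero'
    exact congrArg Subtype.val h1
  have h2 : addOrderOf (x (n + v)) ∣ p ^ K := addOrderOf_dvd_of_nsmul_eq_zero hK
  have h3 : addOrderOf (x (n + v)) ∣ N := addOrderOf_dvd_of_nsmul_eq_zero hNy
  obtain ⟨j, -, hj⟩ := (Nat.dvd_prime_pow hp).1 h2
  rw [hj, hNv] at h3
  have hjv : j ≤ v := by
    by_contra hlt
    have h4 : p ^ (v + 1) ∣ p ^ v * N' := (pow_dvd_pow p (by omega)).trans h3
    rw [pow_succ] at h4
    exact hndvd (Nat.dvd_of_mul_dvd_mul_left (pow_pos hp.pos v) h4)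
  have h5 : (p ^ v : ℕ) • x (n + v) = 0 := by
    apply addOrderOf_dvd_iff_nsmul_eq_zero.1
    rw [hj]
    exact pow_dvd_pow p hjv
  rw [← hpow n v, h5]
  rfl

/-- the condition on the `2`-part for the twist by `1` -/
lemma sg_one : Pool.Agent.N875.P17.Sg 1 := by
  intro x y _ _ _ p hp
  exfalso
  have : Pool.Agent.N875.X15.PR 1 = ∅ := by
    unfold Pool.Agent.N875.X15.PR
    simp
  rw [this] at hp
  exact absurd hp (Finset.notMem_empty p)

/-- the two curves over the field -/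
theorem curveK {r : ℕ} {d : Fin r → ℤ} {a : ℤ}
    (hi : ∀ T : Finset (Fin r), T.Nonempty → ¬ IsSquare (∏ i ∈ T, d i))
    (hg : ∀ T : Finset (Fin r), GA (a * ∏ t ∈ T, d t)) (K : Type) [Field K] [NumberField K]
    (x : Fin r → K) (hx : ∀ i, x i ^ 2 = (d i : K))
    (hK : IntermediateField.adjoin ℚ (Set.range x) = ⊤) :
    (EF (cA a) (cB a) K).Δ ≠ 0 ∧ Finite (EF (cA a) (cB a) K).toAffine.Point ∧
      (∀ y : TensorProduct ℤ (EF (cA a) (cB a) K).toAffine.Point ℚ_[2], y = 0) ∧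
      (∀ y : H1f 2 (EF (cA a) (cB a) K), y = 0) ∧
      (∀ y : PSeq (EF (cA a) (cB a) K), IsV 2 (EF (cA a) (cB a) K) y →
        (∀ (σ : Gal K) (n : ℕ), act (EF (cA a) (cB a) K) σ.toAlgHom (y n) = y n) → y = 0) := by
  have ha : a ≠ 0 := by
    have := (hg ∅).1
    rwa [Finset.prod_empty, mul_one] at this
  have hfin : Finite (EF (cA a) (cB a) K).toAffine.Point := (F17.field hi hg K x hx hK).2
  refine ⟨?_, hfin, Pool.Agent.Y667.BKP.tensor_zero 2,
    Pool.Agent.Y667.BKP.h1f_zero Nat.prime_two hfin r (F17.shaK hg K x hx hK).2,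
    fun y h1 h2 => h0_zero Nat.prime_two hfin y h1 h2⟩
  have e : (EF (cA a) (cB a) K).Δ = -16 * ((4 * cA a ^ 3 + 27 * cB a ^ 2 : ℤ) : K) := by
    simp only [EF, WeierstrassCurve.Δ, WeierstrassCurve.b₂, WeierstrassCurve.b₄,
      WeierstrassCurve.b₆, WeierstrassCurve.b₈]
    push_cast
    ring
  rw [e]
  exact mul_ne_zero (by norm_num) (by exact_mod_cast F17.disc_ne ha)

theorem degree {r : ℕ} {d : Fin r → ℤ}
    (hi : ∀ T : Finset (Fin r), T.Nonempty → ¬ IsSquare (∏ i ∈ T, d i))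
    (K : Type) [Field K] [NumberField K]
    (x : Fin r → K) (hx : ∀ i, x i ^ 2 = (d i : K))
    (hK : IntermediateField.adjoin ℚ (Set.range x) = ⊤) : Module.finrank ℚ K = 2 ^ r := by
  have := Pool.Agent.Y73.QMQ1.gal_of hx hK
  rw [← IsGalois.card_aut_eq_finrank]
  exact Pool.Agent.Y73.QMQ1.card_gal hi hx hK

/-- the `L`-function of the threefold over the field -/
theorem lfunK {r : ℕ} {d : Fin r → ℤ} {a a' : ℤ}
    (hi : ∀ T : Finset (Fin r), T.Nonempty → ¬ IsSquare (∏ i ∈ T, d i))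
    (hg : ∀ T : Finset (Fin r), GA (a * ∏ t ∈ T, d t))
    (hg' : ∀ T : Finset (Fin r), GA (a' * ∏ t ∈ T, d t)) (K : Type) [Field K] [NumberField K]
    (x : Fin r → K) (hx : ∀ i, x i ^ 2 = (d i : K))
    (hK : IntermediateField.adjoin ℚ (Set.range x) = ⊤) {m : ℤ} (hm : m ≠ 0)
    {A B : Matrix (Fin 6) (Fin 6) ℤ} (hAB : Is17 a a' m A B) :
    ∃ ω : HeightOneSpectrum (𝓞 K) → Fin 4 → ℂ,
      (∀ v, ((N17 a a' m * ∏ t, d t : ℤ) : 𝓞 K) ∉ v.asIdeal →
        Pool.Agent.N844.QP.IsFrobV K A B v (ω v)) ∧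
      ∃ L : ℂ → ℂ, Differentiable ℂ L ∧
        (∀ s : ℂ, (5 : ℝ) / 2 < s.re →
          HasProd (fun v : HeightOneSpectrum (𝓞 K) =>
            if ((N17 a a' m * ∏ t, d t : ℤ) : 𝓞 K) ∈ v.asIdeal then 1 else
            ∏ j, (1 - ω v j * (Pool.Agent.N844.QP.qv K v : ℂ) ^ (-s))⁻¹) (L s)) ∧ L 2 ≠ 0 := by
  have ha : a ≠ 0 := by
    have := (hg ∅).1
    rwa [Finset.prod_empty, mul_one] at this
  have ha' : a' ≠ 0 := by
    have := (hg' ∅).1
    rwa [Finset.prod_empty, mul_one] at this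
  have hD : (∏ t, d t) ≠ 0 := by
    intro h0
    apply (hg Finset.univ).1
    rw [h0, mul_zero]
  have hN : N17 a a' m ≠ 0 := by
    unfold N17
    exact mul_ne_zero (by norm_num) (mul_ne_zero (mul_ne_zero ha ha') hm)
  exact eulerS hN hD hAB.split (F17.field hi hg K x hx hK).1 (F17.field hi hg' K x hx hK).1

end Pool.Agent.N844.QG.T17
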